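import Pool.Agent.R598.CI.Fin2

set_option autoImplicit false

namespace Pool.Agent.Results.MP_5b7390_lc.Phi4AndPhi5

open Pool.Agent.W868 Pool.Agent.R598.CI

/-- There is a countable transitive model of ZF in which `IDI`, `WOAC_fin` and
`M(C(≰ ℵ₀), ≥ 2 ^ ℵ₀)` hold and `CAC(C, M_le)`, `CPM_le(C, C)` and `CMC_ω` fail. -/
theorem result : ∃ M : Set ZFSet.{0}, M.Countable ∧ IsZF M ∧
    (IDI M ∧ WOACfin M ∧ MCUnc M) ∧ ¬ CACle M ∧ ¬ CPMle M ∧ ¬ CMCom M := exists_model2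

end Pool.Agent.Results.MP_5b7390_lc.Phi4AndPhi5
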